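import Mathlib

/-!
Subgroups are generated by few elements; primes not dividing a given integer (helper673).
-/

set_option autoImplicit false

namespace Pool.Agent.Y673.SU

theorem gens_aux {G : Type} [Group G] [Finite G] (D : Subgroup G) (k : ℕ) :
    ∃ f : Fin k → G, (∀ i, f i ∈ D) ∧
      (Subgroup.closure (Set.range f) = D ∨ 2 ^ k ≤ Nat.card (Subgroup.closure (Set.range f))) := by
  induction k with
  | zero =>
    refine ⟨fun i => i.elim0, fun i => i.elim0, Or.inr ?_⟩
    rw [pow_zero]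
    exact Nat.card_pos
  | succ k ih =>
    obtain ⟨f, hfD, hf⟩ := ih
    set H := Subgroup.closure (Set.range f) with hH
    have hHD : H ≤ D := by
      rw [hH, Subgroup.closure_le]
      rintro _ ⟨i, rfl⟩
      exact hfD i
    by_cases heq : H = D
    · refine ⟨Fin.cons 1 f, ?_, Or.inl ?_⟩
      · intro i
        refine Fin.cases ?_ ?_ i
        · exact D.one_mem
        · intro j; exact hfD j
      · apply le_antisymm
        · rw [Subgroup.closure_le]
          rintro _ ⟨i, rfl⟩
          refine Fin.cases ?_ ?_ i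
          · exact D.one_mem
          · intro j; exact hfD j
        · rw [← heq, hH]
          apply Subgroup.closure_mono
          rintro _ ⟨i, rfl⟩
          exact ⟨i.succ, by simp⟩
    · obtain ⟨g, hgD, hgH⟩ : ∃ g ∈ D, g ∉ H := by
        by_contra hcon
        push Not at hcon
        exact heq (le_antisymm hHD hcon)
      refine ⟨Fin.cons g f, ?_, Or.inr ?_⟩
      · intro i
        refine Fin.cases ?_ ?_ i
        · exact hgD
        · intro j; exact hfD j
      · set H' := Subgroup.closure (Set.range (Fin.cons g f : Fin (k + 1) → G)) with hH'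
        have h1 : H ≤ H' := by
          rw [hH, hH']
          apply Subgroup.closure_mono
          rintro _ ⟨i, rfl⟩
          exact ⟨i.succ, by simp⟩
        have h2 : g ∈ H' := Subgroup.subset_closure ⟨0, by simp⟩
        obtain ⟨m, hm⟩ := Subgroup.card_dvd_of_le h1
        have hpos : 0 < Nat.card H := Nat.card_pos
        have hpos' : 0 < Nat.card H' := Nat.card_pos
        have h3 : 2 ≤ m := by
          by_contra hlt
          have h4 : m = 0 ∨ m = 1 := by omega
          rcases h4 with rfl | rfl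
          · rw [mul_zero] at hm; omega
          · rw [mul_one] at hm
            have h5 : H = H' := Subgroup.eq_of_le_of_card_ge h1 hm.le
            exact hgH (h5 ▸ h2)
        have h6 := hf.resolve_left heq
        rw [hm, pow_succ]
        exact Nat.mul_le_mul h6 h3

/-- a subgroup of order less than `2 ^ k` is generated by `k` elements -/
theorem gens {G : Type} [Group G] [Finite G] (D : Subgroup G) {k : ℕ} (hk : Nat.card D < 2 ^ k) :
    ∃ f : Fin k → G, (∀ i, f i ∈ D) ∧ Subgroup.closure (Set.range f) = D := by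
  obtain ⟨f, hfD, hf⟩ := gens_aux D k
  refine ⟨f, hfD, hf.resolve_right fun h => ?_⟩
  have hHD : Subgroup.closure (Set.range f) ≤ D := by
    rw [Subgroup.closure_le]
    rintro _ ⟨i, rfl⟩
    exact hfD i
  have h1 := Nat.le_of_dvd Nat.card_pos (Subgroup.card_dvd_of_le hHD)
  omega

open Real in
/-- the number of primes -/
theorem sqrt_le_primes : ∃ Z₁ : ℕ, ∀ Z : ℕ, Z₁ ≤ Z → Real.sqrt Z ≤ (Nat.primeCounting Z : ℝ) := by
  have h1 : ∀ᶠ x : ℝ in Filter.atTop, Real.log x ≤ (1 / 8 : ℝ) * x ^ (1 / 2 : ℝ) := by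
    have := (isLittleO_log_rpow_atTop (by norm_num : (0 : ℝ) < 1 / 2)).def
      (by norm_num : (0 : ℝ) < 1 / 8)
    filter_upwards [this, Filter.eventually_ge_atTop 1] with x hx hx1
    rw [Real.norm_of_nonneg (Real.log_nonneg hx1), Real.norm_of_nonneg (by positivity)] at hx
    exact hx
  obtain ⟨x₀, hx₀⟩ := Filter.eventually_atTop.1 h1
  refine ⟨max ⌈x₀⌉₊ 16, fun Z hZ => ?_⟩
  have hZ16 : (16 : ℝ) ≤ Z := by exact_mod_cast (le_max_right _ _).trans hZ
  have hZx : x₀ ≤ (Z : ℝ) := (Nat.le_ceil x₀).trans (by exact_mod_cast (le_max_left _ _).trans hZ)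
  have h2 := hx₀ Z hZx
  have h3 := hx₀ ((Z : ℝ) + 1) (by linarith)
  have h4 : ((Z : ℝ) * Real.log 2 - Real.log (Z + 1)) ≤
      (Nat.primeCounting Z : ℝ) * Real.log Z :=
    (Chebyshev.psi_ge Z).trans (Chebyshev.psi_le_primeCounting_mul_log Z)
  set s := Real.sqrt Z with hs
  have hs4 : 4 ≤ s := by
    rw [hs]
    apply Real.le_sqrt_of_sq_le
    linarith
  have hss : s * s = Z := Real.mul_self_sqrt (by positivity)
  have e1 : (Z : ℝ) ^ (1 / 2 : ℝ) = s := (Real.sqrt_eq_rpow _).symm
  have e2 : ((Z : ℝ) + 1) ^ (1 / 2 : ℝ) ≤ 2 * s := by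
    rw [← Real.sqrt_eq_rpow]
    apply Real.sqrt_le_iff.2
    constructor
    · positivity
    · nlinarith
  rw [e1] at h2
  have h5 : Real.log ((Z : ℝ) + 1) ≤ s / 4 := by linarith
  have hlogpos : 0 < Real.log Z := Real.log_pos (by linarith)
  have hl2 : (0.69 : ℝ) ≤ Real.log 2 := by have := Real.log_two_gt_d9; linarith
  by_contra hlt
  rw [not_le] at hlt
  have h6 : (Nat.primeCounting Z : ℝ) * Real.log Z ≤ s * (1 / 8 * s) :=
    mul_le_mul hlt.le h2 hlogpos.le (by linarith)
  nlinarith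

/-- a prime in a given range which does not divide a given integer -/
theorem exists_prime_not_dvd : ∃ Z₁ : ℕ, ∀ (Z₀ W l Z : ℕ), Z₁ ≤ Z → W < 2 ^ l →
    (Z₀ + l + 1) ^ 2 ≤ Z → ∀ w : ℤ, w ≠ 0 → |w| ≤ W →
      ∃ q : ℕ, q.Prime ∧ Z₀ ≤ q ∧ q ≤ Z ∧ ¬ (q : ℤ) ∣ w := by
  obtain ⟨Z₁, hZ₁⟩ := sqrt_le_primes
  refine ⟨Z₁, fun Z₀ W l Z hZ hW hZZ w hw hwW => ?_⟩
  by_contra hcon
  push Not at hcon
  -- all primes in the range divide `w`
  set n := w.natAbs with hn
  have hn0 : n ≠ 0 := Int.natAbs_ne_zero.2 hw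
  have hnW : n < 2 ^ l := by
    have h1 : (n : ℤ) ≤ W := by rw [hn, Int.natCast_natAbs]; exact hwW
    have : n ≤ W := by exact_mod_cast h1
    omega
  have h1 : ((Finset.range (Z + 1)).filter Nat.Prime) ⊆
      (Finset.range Z₀) ∪ n.primeFactors := by
    intro q hq
    rw [Finset.mem_filter, Finset.mem_range] at hq
    rw [Finset.mem_union, Finset.mem_range]
    by_cases hqZ : q < Z₀
    · exact Or.inl hqZ
    · right
      rw [Nat.mem_primeFactors]
      refine ⟨hq.2, ?_, hn0⟩
      have h2 := hcon q hq.2 (by omega) (by omega)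
      exact Int.natCast_dvd.1 h2
  have h2 : Nat.primeCounting Z = ((Finset.range (Z + 1)).filter Nat.Prime).card := by
    rw [Nat.primeCounting, Nat.primeCounting', Nat.count_eq_card_filter_range]
  have h3 : n.primeFactors.card ≤ l := by
    have h4 : 2 ^ n.primeFactors.card ≤ n := by
      calc 2 ^ n.primeFactors.card ≤ ∏ q ∈ n.primeFactors, q :=
            Finset.pow_card_le_prod _ _ _ fun q hq => (Nat.prime_of_mem_primeFactors hq).two_le
        _ ≤ n := Nat.le_of_dvd (Nat.pos_of_ne_zero hn0) (Nat.prod_primeFactors_dvd n)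
    by_contra hlt
    have := Nat.pow_le_pow_right (n := 2) (by norm_num) (not_le.1 hlt).le
    omega
  have h4 : Nat.primeCounting Z ≤ Z₀ + l := by
    rw [h2]
    refine (Finset.card_le_card h1).trans ((Finset.card_union_le _ _).trans ?_)
    rw [Finset.card_range]
    omega
  have h5 := hZ₁ Z hZ
  have h6 : ((Z₀ + l + 1 : ℕ) : ℝ) ≤ Real.sqrt Z := by
    apply Real.le_sqrt_of_sq_le
    exact_mod_cast hZZ
  have h7 : ((Z₀ + l + 1 : ℕ) : ℝ) ≤ ((Z₀ + l : ℕ) : ℝ) :=
    h6.trans (h5.trans (by exact_mod_cast h4))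
  have h8 : Z₀ + l + 1 ≤ Z₀ + l := by exact_mod_cast h7
  omega

end Pool.Agent.Y673.SU
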